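import Pool.Agent.Lib.helper21.Heat3
import Pool.Agent.Lib.helper21.Heat4

set_option maxHeartbeats 400000

open MeasureTheory Set Filter Topology
open scoped InnerProductSpace Real

namespace Pool.Agent.Results.MP_44d715_an.Full

/-- state space: real `L_2(0,1)` -/
abbrev X : Type := Lp ℝ 2 (volume.restrict (Ioo (0:ℝ) 1))

/-- input space: `L_∞(ℝ_+, ℝ)` with the essential supremum norm -/
abbrev U : Type := Lp ℝ ⊤ (volume.restrict (Ioi (0:ℝ)))

/-- Dirichlet eigenfunctions `√2 sin((n+1)πz)` of `A = d²/dz²` -/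
noncomputable def sn (n : ℕ) (z : ℝ) : ℝ := Real.sqrt 2 * Real.sin ((n + 1) * π * z)

lemma sn_mem (n : ℕ) : MemLp (sn n) 2 (volume.restrict (Ioo (0:ℝ) 1)) :=
  Pool.Agent.Lib.Helper21.Heat4.sn_mem n

/-- the eigenfunctions as elements of `X` -/
noncomputable def ee (n : ℕ) : X := (sn_mem n).toLp (sn n)

/-- `-lam n` is the eigenvalue of `A` at `ee n` -/
noncomputable def lam (n : ℕ) : ℝ := ((n + 1) * π) ^ 2

/-- coordinates of the Dirichlet control operator `B = -A_{-1} D`, where `D u = (z ↦ z u)` is the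
harmonic function with boundary values `0` at `z = 0` and `u` at `z = 1` -/
noncomputable def bb (n : ℕ) : ℝ := lam n * ∫ z in (0:ℝ)..1, sn n z * z

/-- `n`-th coordinate of `T(t)x + ∫_0^t T_{-1}(t-s) B u(s) ds` -/
noncomputable def coef (t : ℝ) (x : X) (u : U) (n : ℕ) : ℝ :=
  Real.exp (-lam n * t) * (∫ z in (0:ℝ)..1, sn n z * x z)
    + bb n * ∫ s in (0:ℝ)..t, Real.exp (-lam n * (t - s)) * u s

/-- the mild solution -/
noncomputable def phi (t : ℝ) (x : X) (u : U) : X := ∑' n, coef t x u n • ee n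

/-- class `K` -/
def IsK (f : ℝ → ℝ) : Prop := ContinuousOn f (Ici 0) ∧ StrictMonoOn f (Ici 0) ∧ f 0 = 0

/-- class `K_∞` -/
def IsKInf (f : ℝ → ℝ) : Prop := IsK f ∧ Tendsto f atTop atTop

/-- upper right Dini derivative of `V` along the mild solution -/
noncomputable def dini (V : X → ℝ) (u : U) (x : X) : EReal :=
  limsup (fun h : ℝ => (((V (phi h x u) - V x) / h : ℝ) : EReal)) (𝓝[>] 0)

/-- coercive ISS Lyapunov function -/
def IsCoerciveISS (V : X → ℝ) : Prop :=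
  Continuous V ∧ (∀ x, 0 ≤ V x) ∧ ∃ ψ₁ ψ₂ α σ : ℝ → ℝ, IsKInf ψ₁ ∧ IsKInf ψ₂ ∧ IsKInf α ∧ IsK σ ∧
    (∀ x, ψ₁ ‖x‖ ≤ V x ∧ V x ≤ ψ₂ ‖x‖) ∧
    ∀ (x : X) (u : U), dini V u x ≤ ((-α ‖x‖ + σ ‖u‖ : ℝ) : EReal)

open Pool.Agent.Lib.Helper21

lemma bb_eq (n : ℕ) : bb n = Real.sqrt 2 * ((n + 1) * π) * (-1) ^ n := by
  set a : ℝ := (n + 1) * π with ha
  have ha0 : a ≠ 0 := by positivity
  have h1 : ∫ z in (0:ℝ)..1, sn n z * z
      = Real.sqrt 2 * (-(1 * Real.cos (a * 1)) / a + Real.sin (a * 1) / a ^ 2)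
        - Real.sqrt 2 * (-(0 * Real.cos (a * 0)) / a + Real.sin (a * 0) / a ^ 2) := by
    apply intervalIntegral.integral_eq_sub_of_hasDerivAt
      (f := fun z => Real.sqrt 2 * (-(z * Real.cos (a * z)) / a + Real.sin (a * z) / a ^ 2))
    · intro z _
      have d0 : HasDerivAt (fun z => a * z) (a * 1) z := (hasDerivAt_id z).const_mul a
      have d1 := ((((hasDerivAt_id z).mul d0.cos).neg.div_const a).add
        (d0.sin.div_const (a ^ 2))).const_mul (Real.sqrt 2)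
      have e : sn n z * z = Real.sqrt 2 * (-(1 * Real.cos (a * z) + id z * (-Real.sin (a * z)
          * (a * 1))) / a + Real.cos (a * z) * (a * 1) / a ^ 2) := by
        rw [sn, ← ha]
        simp only [id]
        field_simp
        ring
      rw [e]
      exact d1
    · exact ((Heat4.sn_cont n).mul continuous_id).intervalIntegrable _ _
  have c1 : Real.cos (a * 1) = -(-1) ^ n := by
    rw [mul_one, ha]
    have := Real.cos_nat_mul_pi (n + 1)
    push_cast at this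
    rw [this]; ring
  have c2 : Real.sin (a * 1) = 0 := by
    rw [mul_one, ha]
    have := Real.sin_nat_mul_pi (n + 1)
    push_cast at this
    exact this
  rw [bb, h1, c1, c2, lam, ← ha]
  simp only [mul_zero, zero_mul, Real.sin_zero]
  field_simp
  ring

lemma lam_ge (n : ℕ) : ((n:ℝ) + 1) ^ 2 ≤ lam n := by
  rw [lam, mul_pow]
  have : 1 ≤ π ^ 2 := one_le_pow₀ (by linarith [Real.pi_gt_three])
  exact le_mul_of_one_le_right (by positivity) this

noncomputable def mm (n : ℕ) : ℝ := ((n:ℝ) + 1) ^ ((4:ℕ):ℝ)⁻¹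

lemma mm_pos (n : ℕ) : 0 < mm n := by unfold mm; positivity

lemma mm_four (n : ℕ) : mm n ^ 4 = n + 1 := Real.rpow_inv_natCast_pow (by positivity) (by norm_num)

lemma mm_six (n : ℕ) : mm n ^ 6 = ((n:ℝ) + 1) ^ (3 / 2 : ℝ) := by
  rw [mm, ← Real.rpow_natCast, ← Real.rpow_mul (by positivity)]
  norm_num

lemma summ : Summable fun n => (bb n * (mm n / lam n + 1 / mm n ^ 7)) ^ 2 := by
  have h0 : Summable fun n : ℕ => 1 / ((n:ℝ) + 1) ^ (3 / 2 : ℝ) := by
    have := (summable_nat_add_iff 1).2 (Real.summable_one_div_nat_rpow.2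
      (by norm_num : (1:ℝ) < 3 / 2))
    simpa using this
  refine Summable.of_nonneg_of_le (fun _ => sq_nonneg _) (fun n => ?_) (h0.mul_left (8 * π ^ 2))
  have hm := mm_pos n
  have h4 := mm_four n
  have hl := lam_ge n
  have hl' : mm n ^ 8 ≤ lam n := by
    rw [← h4] at hl
    calc mm n ^ 8 = (mm n ^ 4) ^ 2 := by ring
      _ ≤ _ := hl
  have hl0 : 0 < lam n := lt_of_lt_of_le (by positivity) hl'
  have a1 : mm n / lam n ≤ 1 / mm n ^ 7 := by
    rw [div_le_div_iff₀ hl0 (by positivity)]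
    calc mm n * mm n ^ 7 = mm n ^ 8 := by ring
      _ ≤ _ := by linarith
  have a2 : bb n ^ 2 = 2 * π ^ 2 * mm n ^ 8 := by
    rw [bb_eq, ← h4, mul_pow, mul_pow, Real.sq_sqrt (by norm_num), ← pow_mul, mul_comm n 2,
      pow_mul]
    ring
  have a3 : (mm n / lam n + 1 / mm n ^ 7) ^ 2 ≤ (2 / mm n ^ 7) ^ 2 := by
    apply pow_le_pow_left₀ (by positivity)
    have : 2 / mm n ^ 7 = 1 / mm n ^ 7 + 1 / mm n ^ 7 := by ring
    linarith
  rw [mul_pow, a2, ← mm_six]
  calc _ ≤ 2 * π ^ 2 * mm n ^ 8 * (2 / mm n ^ 7) ^ 2 := by gcongr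
    _ = _ := by field_simp; ring

noncomputable def D : Heat2.Sys X where
  e := Heat4.basis
  l := lam
  b := bb
  m := mm
  hl := fun n => le_trans (one_le_pow₀ (by simp)) (lam_ge n)
  hm := mm_pos
  hs := summ

lemma rep (u : U) : ∃ w : ℝ → ℝ, Heat1.Inp w ∧ (∀ s, |w s| ≤ ‖u‖) ∧
    w =ᵐ[volume.restrict (Ioi (0:ℝ))] u := by
  classical
  have hm : Measurable (⇑u) := (Lp.stronglyMeasurable u).measurable
  have hb : ∀ s, |(if |u s| ≤ ‖u‖ then u s else 0)| ≤ ‖u‖ := fun s => by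
    split_ifs with h
    · exact h
    · simp
  refine ⟨fun s => if |u s| ≤ ‖u‖ then u s else 0, ⟨?_, ‖u‖, hb⟩, hb, ?_⟩
  · exact Measurable.ite (measurableSet_le hm.abs measurable_const) hm measurable_const
  · filter_upwards [ae_le_eLpNormEssSup (f := ⇑u) (μ := volume.restrict (Ioi (0:ℝ)))] with s hs
    have : |u s| ≤ ‖u‖ := by
      rw [Lp.norm_def, eLpNorm_exponent_top, ← Real.norm_eq_abs, ← toReal_enorm]
      apply ENNReal.toReal_mono _ hs
      have := Lp.eLpNorm_ne_top u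
      rwa [eLpNorm_exponent_top] at this
    rw [if_pos this]

lemma coef_eq {t : ℝ} (ht : 0 ≤ t) (x : X) {u : U} {w : ℝ → ℝ}
    (hw : w =ᵐ[volume.restrict (Ioi (0:ℝ))] u) :
    coef t x u = fun n => Heat2.cT D t x n + Heat2.cF D t w n := by
  funext n
  have h1 : ⟪D.e n, x⟫_ℝ = ∫ z in (0:ℝ)..1, sn n z * x z := by
    change ⟪Heat4.basis n, x⟫_ℝ = _
    rw [Heat4.basis_eq]
    exact Heat4.inner_ee n x
  have h2 : ∫ s in (0:ℝ)..t, Real.exp (-lam n * (t - s)) * u s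
      = ∫ s in (0:ℝ)..t, Real.exp (-lam n * (t - s)) * w s := by
    apply intervalIntegral.integral_congr_ae_restrict
    rw [uIoc_of_le ht]
    have := ae_restrict_of_ae_restrict_of_subset (s := Ioc 0 t) Ioc_subset_Ioi_self hw
    filter_upwards [this] with s hs
    rw [hs]
  rw [coef, Heat2.cT, Heat2.cF, h1, h2]
  rfl

lemma De : ⇑D.e = ee := Heat4.basis_eq

lemma phi_eq {t : ℝ} (ht : 0 ≤ t) (x : X) {u : U} {w : ℝ → ℝ}
    (hw : w =ᵐ[volume.restrict (Ioi (0:ℝ))] u) : phi t x u = Heat2.phi D t x w := by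
  rw [phi, coef_eq ht x hw, Heat2.phi, Heat1.syn, De]

lemma kinf {c : ℝ} (hc : 0 < c) : IsKInf fun r => c * r ^ 8 := by
  refine ⟨⟨by fun_prop, fun a ha b _ hab => ?_, by simp⟩, ?_⟩
  · exact mul_lt_mul_of_pos_left (pow_lt_pow_left₀ hab ha (by norm_num)) hc
  · exact (tendsto_pow_atTop (by norm_num)).const_mul_atTop hc

theorem result :
    (Orthonormal ℝ ee ∧ ∀ x : X, (∀ n, ⟪ee n, x⟫_ℝ = 0) → x = 0) ∧
    (∀ t : ℝ, 0 ≤ t → ∀ (x : X) (u : U), HasSum (fun n => coef t x u n • ee n) (phi t x u)) ∧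
    (∀ (x : X) (u : U), phi 0 x u = x) ∧
    ∃ V : X → ℝ, IsCoerciveISS V := by
  refine ⟨⟨Heat4.ee_on, Heat4.complete⟩, fun t ht x u => ?_, fun x u => ?_, Heat3.V D,
    Heat3.V_cont D, fun x => le_trans (by positivity) (Heat3.le_V D x),
    fun r => 1 * r ^ 8, fun r => 128 * r ^ 8, fun r => 1 / 2 * r ^ 8,
    fun r => Heat3.K D * r ^ 8, kinf one_pos, kinf (by norm_num), kinf (by norm_num),
    (kinf (Heat3.K_pos D)).1, fun x => ⟨?_, Heat3.V_le D x⟩, fun x u => ?_⟩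
  · obtain ⟨w, hw, -, hwu⟩ := rep u
    rw [phi_eq ht x hwu, coef_eq ht x hwu, ← De]
    exact Heat1.hasSum_syn D.e (Heat2.sum_c D ht x hw)
  · obtain ⟨w, hw, -, hwu⟩ := rep u
    rw [phi_eq le_rfl x hwu, Heat2.phi_zero D x hw]
  · simpa using Heat3.le_V D x
  · obtain ⟨w, hw, hb, hwu⟩ := rep u
    apply limsup_le_of_le (by isBoundedDefault)
    filter_upwards [Ioc_mem_nhdsGT (zero_lt_one' ℝ)] with h hh
    rw [phi_eq hh.1.le x hwu, EReal.coe_le_coe_iff]
    have := Heat3.V_quot D hh.1 hh.2 x hw hb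
    linarith

end Pool.Agent.Results.MP_44d715_an.Full
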